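import Pool.Agent.Helper79.TL.Core
import Pool.Agent.Helper31.BrauerLift

/-!
# TL-C2: the dimension of `Vl` from the character
-/

set_option autoImplicit false

open Module

namespace Pool.Agent.Helper79.TL.C2

open Pool.Agent.Helper79.TL Pool.Agent.Helper79.TL.GPre

/-- TL-C2 -/
theorem char_Vl {G : Type} [Group G] {D : GPre G} (hD : D.Good)
    {V : Type} [AddCommGroup V] [Module ℂ V] [FiniteDimensional ℂ V] (ρ : Representation ℂ G V) :
    ∑ a, (ρ.character (D.r a) - ρ.character (D.z * D.r a)) = 32 * (finrank ℂ ↥(D.Vl ρ) : ℂ) := by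
  set T : V →ₗ[ℂ] V := D.E ρ - ρ D.z ∘ₗ D.E ρ with hT
  have hTr : LinearMap.trace ℂ V T =
      ∑ a, (ρ.character (D.r a) - ρ.character (D.z * D.r a)) := by
    rw [hT, map_sub]
    have h1 : LinearMap.trace ℂ V (D.E ρ) = ∑ a, ρ.character (D.r a) := by
      unfold GPre.E
      rw [map_sum]
      rfl
    have h2 : LinearMap.trace ℂ V (ρ D.z ∘ₗ D.E ρ) = ∑ a, ρ.character (D.z * D.r a) := by
      have h3 : ρ D.z ∘ₗ D.E ρ = ∑ a, ρ (D.z * D.r a) := by
        unfold GPre.E
        refine LinearMap.ext (fun v => ?_)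
        simp only [LinearMap.comp_apply, LinearMap.sum_apply, map_sum, map_mul, Module.End.mul_apply]
      rw [h3, map_sum]
      rfl
    rw [h1, h2, Finset.sum_sub_distrib]
  have hproj : LinearMap.IsProj (D.Vl ρ) ((1 / 32 : ℂ) • T) := by
    constructor
    · intro v
      refine Submodule.smul_mem _ _ ?_
      refine ⟨fun a => ?_, ?_⟩
      · simp only [hT, LinearMap.sub_apply, LinearMap.comp_apply, map_sub]
        rw [r_E ρ hD, ← rho_mul, ← hD.z_comm, rho_mul, r_E ρ hD]
      · simp only [hT, LinearMap.sub_apply, LinearMap.comp_apply, map_sub]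
        rw [← rho_mul, hD.z_sq, map_one, Module.End.one_apply]
        abel
    · intro v hv
      simp only [hT, LinearMap.smul_apply, LinearMap.sub_apply, LinearMap.comp_apply]
      rw [E_of_mem ρ hD hv, map_smul, hv.2, smul_neg, sub_neg_eq_add, ← add_smul, smul_smul]
      norm_num
  have htr := hproj.trace
  rw [map_smul, smul_eq_mul, hTr] at htr
  rw [← htr]
  ring

end Pool.Agent.Helper79.TL.C2
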