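import Pool.Agent.Helper79.TL.Core
import Pool.Agent.Helper31.BrauerLift

/-!
# TL-P2: recognising `PSL(3, F)` as a central quotient
-/

set_option autoImplicit false

open Module Matrix
open scoped MatrixGroups
open Pool.Agent.Helper31.Brauer

namespace Pool.Agent.Helper79.TL.P2

/-- general form: `S` any group whose quotient by the centre is simple and perfect -/
theorem iso_general {Γ E S : Type} [Group Γ] [Group E] [Group S] (α : E →* S) (β : E →* Γ)
    (hα : Function.Surjective α) (hβ : Function.Surjective β)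
    (hperf : commutator (S ⧸ Subgroup.center S) = ⊤) (hsimple : IsSimpleGroup (S ⧸ Subgroup.center S))
    (z : Γ) (hz : z ∈ Subgroup.center Γ)
    (hker : ∀ g, α g ∈ Subgroup.center S ↔ (β g = 1 ∨ β g = z))
    (hzc : z ∈ commutator Γ) :
    Nonempty (Γ ⧸ Subgroup.center Γ ≃* S ⧸ Subgroup.center S) ∧ IsQuasisimple Γ ∧
      (∀ g ∈ Subgroup.center Γ, g = 1 ∨ g = z) := by
  set γ : E →* S ⧸ Subgroup.center S := (QuotientGroup.mk' (Subgroup.center S)).comp α with hγ
  have hγs : Function.Surjective γ := (QuotientGroup.mk'_surjective _).comp hα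
  have hγker : ∀ g, γ g = 1 ↔ (β g = 1 ∨ β g = z) := by
    intro g
    rw [← hker g, hγ, MonoidHom.comp_apply, QuotientGroup.mk'_apply, QuotientGroup.eq_one_iff]
  have hle : β.ker ≤ γ.ker := by
    intro g hg
    rw [MonoidHom.mem_ker] at hg ⊢
    exact (hγker g).2 (Or.inl hg)
  set π : Γ →* S ⧸ Subgroup.center S := (MonoidHom.liftOfSurjective β hβ) ⟨γ, hle⟩ with hπ
  have hπβ : ∀ g, π (β g) = γ g := by
    intro g
    exact MonoidHom.liftOfRightInverse_comp_apply β _ _ ⟨γ, hle⟩ g
  have hπs : Function.Surjective π := by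
    intro y
    obtain ⟨g, hg⟩ := hγs y
    exact ⟨β g, by rw [hπβ, hg]⟩
  have hπker : ∀ c, π c = 1 ↔ (c = 1 ∨ c = z) := by
    intro c
    obtain ⟨g, rfl⟩ := hβ c
    rw [hπβ, hγker]
  -- the centre of the simple quotient is trivial
  have hcen : Subgroup.center (S ⧸ Subgroup.center S) = ⊥ := by
    rcases hsimple.eq_bot_or_eq_top_of_normal (Subgroup.center (S ⧸ Subgroup.center S)) inferInstance with h | h
    · exact h
    · exfalso
      have h1 : commutator (S ⧸ Subgroup.center S) = ⊥ := by
        rw [commutator_def, Subgroup.commutator_eq_bot_iff_le_centralizer, Subgroup.coe_top,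
          Subgroup.centralizer_univ, h]
      rw [hperf] at h1
      have h2 := hsimple.toNontrivial
      exact top_ne_bot h1
  have hcenter : Subgroup.center Γ = π.ker := by
    ext c
    rw [MonoidHom.mem_ker, hπker]
    constructor
    · intro hc
      have h1 : π c ∈ Subgroup.center (S ⧸ Subgroup.center S) := by
        rw [Subgroup.mem_center_iff] at hc ⊢
        intro y
        obtain ⟨x, rfl⟩ := hπs y
        rw [← map_mul, ← map_mul, hc]
      rw [hcen, Subgroup.mem_bot] at h1
      exact (hπker c).1 h1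
    · rintro (rfl | rfl)
      · exact Subgroup.one_mem _
      · exact hz
  have e : Γ ⧸ Subgroup.center Γ ≃* S ⧸ Subgroup.center S :=
    (QuotientGroup.quotientMulEquivOfEq hcenter).trans (QuotientGroup.quotientKerEquivOfSurjective π hπs)
  refine ⟨⟨e⟩, ⟨?_, ?_⟩, ?_⟩
  · -- perfect
    rw [eq_top_iff]
    intro c _
    have hmap : (commutator Γ).map π = ⊤ := by
      rw [commutator_def, Subgroup.map_commutator, Subgroup.map_top_of_surjective π hπs,
        ← commutator_def, hperf]
    obtain ⟨n, hn, hnc⟩ : π c ∈ (commutator Γ).map π := by rw [hmap]; trivial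
    have h1 : π (c * n⁻¹) = 1 := by rw [map_mul, map_inv, hnc, mul_inv_cancel]
    have h2 : c * n⁻¹ ∈ commutator Γ := by
      rcases (hπker _).1 h1 with h | h
      · rw [h]; exact Subgroup.one_mem _
      · rw [h]; exact hzc
    have h3 : c = c * n⁻¹ * n := by group
    rw [h3]
    exact Subgroup.mul_mem _ h2 hn
  · exact e.isSimpleGroup
  · intro g hg
    rw [hcenter, MonoidHom.mem_ker] at hg
    exact (hπker g).1 hg

/-- TL-P2, from the two statements of TL-P1 -/
theorem iso_of_data_of {Γ E F : Type} [Group Γ] [Group E] [Field F]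
    (hperf : commutator PSL(3, F) = ⊤) (hsimple : IsSimpleGroup PSL(3, F))
    (α : E →* SL(3, F)) (β : E →* Γ)
    (hα : Function.Surjective α) (hβ : Function.Surjective β) (z : Γ) (hz : z ∈ Subgroup.center Γ)
    (hker : ∀ g, α g ∈ Subgroup.center SL(3, F) ↔ (β g = 1 ∨ β g = z))
    (hzc : z ∈ commutator Γ) :
    Nonempty (Γ ⧸ Subgroup.center Γ ≃* PSL(3, F)) ∧ IsQuasisimple Γ ∧
      (∀ g ∈ Subgroup.center Γ, g = 1 ∨ g = z) :=
  iso_general α β hα hβ hperf hsimple z hz hker hzc

end Pool.Agent.Helper79.TL.P2
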